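import Pool.Agent.Helper28.BPack.Pack

/-!
# Atoms below `Q` which the piece `p0` meets only above `Q`
-/

set_option autoImplicit false
set_option linter.unusedSectionVars false

namespace Pool.Agent.Helper42.SC

open Pool.Agent.Helper28.BPack Finset
open Classical in

/-- All but at most `2 ^ r * t` atoms `a` below the coatom `Q` are only below those members of the
Boolean piece `p0` which are above `Q`, if at most `t` atoms are below each element of rank at most
`r - 2`. -/
theorem card_avoid {L : Type} [Lattice L] [BoundedOrder L] [Fintype L] [IsUpperModularLattice L]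
    {p0 : Pc L} (hn : p0.n = rk (⊤ : L)) {Q : L} {t : ℕ}
    (ht : ∀ x : L, rk x + 2 ≤ rk (⊤ : L) →
      (univ.filter (fun a : L => IsAtom a ∧ a ≤ x)).card ≤ t)
    (hQ : rk Q + 1 = rk (⊤ : L)) :
    (univ.filter (fun a : L => IsAtom a ∧ a ≤ Q)).card ≤
      (univ.filter (fun a : L => (IsAtom a ∧ a ≤ Q) ∧ ∀ J, a ≤ p0.val J → Q ≤ p0.val J)).card +
        2 ^ rk (⊤ : L) * t := by
  have hsub : univ.filter (fun a : L => IsAtom a ∧ a ≤ Q) ⊆
      univ.filter (fun a : L => (IsAtom a ∧ a ≤ Q) ∧ ∀ J, a ≤ p0.val J → Q ≤ p0.val J) ∪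
        (univ.filter (fun J : Finset (Fin p0.n) => ¬ Q ≤ p0.val J)).biUnion
          (fun J => univ.filter (fun a : L => IsAtom a ∧ a ≤ p0.val J ⊓ Q)) := by
    intro a ha
    rw [mem_filter] at ha
    by_cases h : ∀ J, a ≤ p0.val J → Q ≤ p0.val J
    · exact mem_union_left _ (mem_filter.mpr ⟨mem_univ _, ha.2, h⟩)
    · push Not at h
      obtain ⟨J, h1, h2⟩ := h
      refine mem_union_right _ (mem_biUnion.mpr ⟨J, mem_filter.mpr ⟨mem_univ _, h2⟩, ?_⟩)
      exact mem_filter.mpr ⟨mem_univ _, ha.2.1, le_inf h1 ha.2.2⟩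
  refine (card_le_card hsub).trans ((card_union_le _ _).trans (Nat.add_le_add_left ?_ _))
  refine (card_biUnion_le_card_mul _ _ t fun J hJ => ht _ ?_).trans
    (Nat.mul_le_mul_right _ ?_)
  · have h1 : p0.val J ⊓ Q < Q :=
      lt_of_le_of_ne inf_le_right fun h => (mem_filter.mp hJ).2 (h ▸ inf_le_left)
    have := rk_lt h1
    omega
  · refine (card_le_univ _).trans ?_
    rw [Fintype.card_finset, Fintype.card_fin, hn]

end Pool.Agent.Helper42.SC
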